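import Pool.Agent.H23.BG.TargetsP
import Pool.Agent.H29.DW.Tools

/-!
# The average of the products of the numbers of points
-/

set_option autoImplicit false

open NumberField NumberField.InfinitePlace NumberField.Units
  NumberField.Units.dirichletUnitTheorem MeasureTheory Set Filter Complex
open scoped nonZeroDivisors ENNReal

namespace Pool.Agent.H95.BG

open Pool.Agent.H25.HK Pool.Agent.H23.LB Pool.Agent.H23.LC Pool.Agent.H29.DW
  Pool.Agent.H23.BG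
open Pool.Agent.H28.RC (Rep ft idl)

/-! ### Real inequalities -/

theorem t6_real {C m n₂ n₃ n₄ t₂ t₃ V : ℝ} (hC : 1 ≤ C) (hV : 0 < V) (hm : 1 ≤ m)
    (hmV : V ≤ C * m) (h₂ : 1 ≤ n₂) (h₃ : 1 ≤ n₃) (_h₄ : 0 ≤ n₄) (h₄m : n₄ ≤ C * m)
    (a₂ : n₂ - 1 ≤ C * (t₂ - 1)) (a₃ : n₃ - 1 ≤ C * (t₃ - 1)) (b₃ : n₃ ≤ C * t₃) :
    n₂ * n₃ * n₄ / m ^ 3 ≤ (C ^ 3 * V ^ (-2 : ℝ)) *
      (1 + C * (t₃ - 1) + C ^ 2 * ((t₂ - 1) * t₃)) := by
  have hC0 : 0 < C := by linarith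
  have hm0 : 0 < m := by linarith
  have hV2 : V ^ (-2 : ℝ) = (V ^ 2)⁻¹ := by
    rw [Real.rpow_neg hV.le, Real.rpow_two]
  have hprod : n₂ * n₃ ≤ 1 + C * (t₃ - 1) + C ^ 2 * ((t₂ - 1) * t₃) := by
    have h1 : (n₂ - 1) * n₃ ≤ (C * (t₂ - 1)) * (C * t₃) :=
      mul_le_mul a₂ b₃ (by linarith) (by linarith)
    nlinarith
  have h5 : n₂ * n₃ * n₄ / m ^ 3 ≤ (C / m ^ 2) * (n₂ * n₃) := by
    have h6 : n₂ * n₃ * n₄ ≤ n₂ * n₃ * (C * m) :=
      mul_le_mul_of_nonneg_left h₄m (by positivity)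
    calc n₂ * n₃ * n₄ / m ^ 3 ≤ n₂ * n₃ * (C * m) / m ^ 3 := by gcongr
      _ = (C / m ^ 2) * (n₂ * n₃) := by field_simp
  have h6 : C / m ^ 2 ≤ C ^ 3 * V ^ (-2 : ℝ) := by
    rw [hV2]
    have h7 : V ^ 2 ≤ (C * m) ^ 2 := pow_le_pow_left₀ hV.le hmV 2
    rw [div_le_iff₀ (by positivity), mul_assoc, ← div_eq_inv_mul, mul_div_assoc',
      le_div_iff₀ (by positivity)]
    nlinarith
  calc n₂ * n₃ * n₄ / m ^ 3 ≤ (C / m ^ 2) * (n₂ * n₃) := h5
    _ ≤ (C ^ 3 * V ^ (-2 : ℝ)) * (n₂ * n₃) := mul_le_mul_of_nonneg_right h6 (by positivity)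
    _ ≤ _ := mul_le_mul_of_nonneg_left hprod
      (mul_nonneg (by positivity) (Real.rpow_nonneg hV.le _))

/-- the mean of the first theta function -/
theorem t6_num1 {n : ℕ} {κ V N₃ : ℝ} (hκ : 0 < κ) (hκ1 : κ ≤ 1) (hV : 0 < V)
    (h₃ : 1 ≤ N₃) : (2 ^ n * V / N₃) ^ (1 + κ) ≤ 4 ^ n * (V ^ (1 + κ) / N₃) := by
  have h0 : (0 : ℝ) < 2 ^ n := by positivity
  rw [Real.div_rpow (by positivity) (by linarith), Real.mul_rpow h0.le hV.le, mul_div_assoc]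
  have h1 : ((2 : ℝ) ^ n) ^ (1 + κ) ≤ 4 ^ n := by
    calc ((2 : ℝ) ^ n) ^ (1 + κ) ≤ ((2 : ℝ) ^ n) ^ (2 : ℝ) :=
          Real.rpow_le_rpow_of_exponent_le (one_le_pow₀ (by norm_num)) (by linarith)
      _ = 4 ^ n := by
          rw [Real.rpow_two, ← pow_mul, mul_comm n 2, pow_mul]
          norm_num
  have h2 : N₃ ≤ N₃ ^ (1 + κ) := by
    calc N₃ = N₃ ^ (1 : ℝ) := (Real.rpow_one _).symm
      _ ≤ _ := Real.rpow_le_rpow_of_exponent_le h₃ (by linarith)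
  have h3 : 0 ≤ V ^ (1 + κ) := Real.rpow_nonneg hV.le _
  exact mul_le_mul h1 (div_le_div_of_nonneg_left h3 (by linarith) h2)
    (div_nonneg h3 (by positivity)) (by positivity)

/-- the mean of the product -/
theorem t6_num2 {n : ℕ} {κ V N N₂ N₃ : ℝ} (hκ : 0 < κ) (hκ1 : κ ≤ 1) (hV : 0 < V)
    (h₂ : 1 ≤ N₂) (h₃ : 1 ≤ N₃) (hN₂ : N₂ ≤ N) (hN₃ : N₃ ≤ N) :
    ((2 ^ n * V / N₂) / (2 ^ n * V / N₃) + (2 ^ n * V / N₃) / (2 ^ n * V / N₂)) ^ κ *
      (2 ^ n * V / N₂ + 2 ^ n * V / N₃ + (2 ^ n * V / N₂) * (2 ^ n * V / N₃)) ≤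
    (4 * 4 ^ n) * (N ^ κ * (1 + V ^ (1 + κ) / N₂ + V ^ (1 + κ) / N₃ + V ^ 2 / (N₂ * N₃))) := by
  have h0 : (0 : ℝ) < 2 ^ n := by positivity
  have hN : 1 ≤ N := h₂.trans hN₂
  have e1 : (2 ^ n * V / N₂) / (2 ^ n * V / N₃) = N₃ / N₂ := by field_simp
  have e2 : (2 ^ n * V / N₃) / (2 ^ n * V / N₂) = N₂ / N₃ := by field_simp
  have h4 : N₃ / N₂ + N₂ / N₃ ≤ 2 * N := by
    have a1 : N₃ / N₂ ≤ N₃ := div_le_self (by linarith) h₂
    have a2 : N₂ / N₃ ≤ N₂ := div_le_self (by linarith) h₃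
    linarith
  have h5 : (N₃ / N₂ + N₂ / N₃) ^ κ ≤ 2 * N ^ κ := by
    calc (N₃ / N₂ + N₂ / N₃) ^ κ ≤ (2 * N) ^ κ :=
          Real.rpow_le_rpow (by positivity) h4 hκ.le
      _ = 2 ^ κ * N ^ κ := Real.mul_rpow (by norm_num) (by linarith)
      _ ≤ 2 * N ^ κ := by
          have : (2 : ℝ) ^ κ ≤ 2 ^ (1 : ℝ) :=
            Real.rpow_le_rpow_of_exponent_le (by norm_num) hκ1
          rw [Real.rpow_one] at this
          exact mul_le_mul_of_nonneg_right this (Real.rpow_nonneg (by linarith) _)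
  have hP : 0 ≤ V ^ (1 + κ) := Real.rpow_nonneg hV.le _
  have h6 : V ≤ 1 + V ^ (1 + κ) := by
    rcases le_total V 1 with h | h
    · linarith
    · have : V ^ (1 : ℝ) ≤ V ^ (1 + κ) :=
        Real.rpow_le_rpow_of_exponent_le h (by linarith)
      rw [Real.rpow_one] at this
      linarith
  have h7 : V / N₂ ≤ 1 + V ^ (1 + κ) / N₂ := by
    calc V / N₂ ≤ (1 + V ^ (1 + κ)) / N₂ := by gcongr
      _ = 1 / N₂ + V ^ (1 + κ) / N₂ := add_div _ _ _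
      _ ≤ 1 + V ^ (1 + κ) / N₂ := by
          have : 1 / N₂ ≤ 1 := div_le_self zero_le_one h₂
          linarith
  have h8 : V / N₃ ≤ 1 + V ^ (1 + κ) / N₃ := by
    calc V / N₃ ≤ (1 + V ^ (1 + κ)) / N₃ := by gcongr
      _ = 1 / N₃ + V ^ (1 + κ) / N₃ := add_div _ _ _
      _ ≤ 1 + V ^ (1 + κ) / N₃ := by
          have : 1 / N₃ ≤ 1 := div_le_self zero_le_one h₃
          linarith
  have h24 : (2 : ℝ) ^ n ≤ 4 ^ n := pow_le_pow_left₀ (by norm_num) (by norm_num) n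
  have h44 : (2 : ℝ) ^ n * 2 ^ n = 4 ^ n := by
    rw [← mul_pow]
    norm_num
  have hQ : 0 ≤ V ^ 2 / (N₂ * N₃) := by positivity
  have hR₂ : 0 ≤ V ^ (1 + κ) / N₂ := by positivity
  have hR₃ : 0 ≤ V ^ (1 + κ) / N₃ := by positivity
  have h9 : 2 ^ n * V / N₂ + 2 ^ n * V / N₃ + (2 ^ n * V / N₂) * (2 ^ n * V / N₃) ≤
      (2 * 4 ^ n) * (1 + V ^ (1 + κ) / N₂ + V ^ (1 + κ) / N₃ + V ^ 2 / (N₂ * N₃)) := by
    have b1 : 2 ^ n * V / N₂ ≤ 4 ^ n * (1 + V ^ (1 + κ) / N₂) := by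
      rw [mul_div_assoc]
      exact mul_le_mul h24 h7 (by positivity) (by positivity)
    have b2 : 2 ^ n * V / N₃ ≤ 4 ^ n * (1 + V ^ (1 + κ) / N₃) := by
      rw [mul_div_assoc]
      exact mul_le_mul h24 h8 (by positivity) (by positivity)
    have b3 : (2 ^ n * V / N₂) * (2 ^ n * V / N₃) = 4 ^ n * (V ^ 2 / (N₂ * N₃)) := by
      rw [← h44]
      field_simp
    have h4n : (0 : ℝ) < 4 ^ n := by positivity
    rw [b3]
    nlinarith [mul_nonneg h4n.le hQ, mul_nonneg h4n.le hR₂, mul_nonneg h4n.le hR₃]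
  rw [e1, e2]
  calc (N₃ / N₂ + N₂ / N₃) ^ κ *
      (2 ^ n * V / N₂ + 2 ^ n * V / N₃ + (2 ^ n * V / N₂) * (2 ^ n * V / N₃))
      ≤ (2 * N ^ κ) * ((2 * 4 ^ n) *
        (1 + V ^ (1 + κ) / N₂ + V ^ (1 + κ) / N₃ + V ^ 2 / (N₂ * N₃))) :=
        mul_le_mul h5 h9 (by positivity) (by positivity)
    _ = _ := by ring

/-! ### Ideals -/

section NF

variable {K : Type} [Field K] [NumberField K]

theorem t6_Nf {f g : Ideal (𝓞 K)} (hf : f ≠ ⊥) (h : f ≤ g) :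
    g ≠ ⊥ ∧ 1 ≤ Nf K g ∧ Nf K g ≤ Nf K f := by
  have h2 : g ≠ ⊥ := by
    rintro rfl
    exact hf (le_bot_iff.1 h)
  have h0 : Ideal.absNorm g ≠ 0 := fun h => h2 (Ideal.absNorm_eq_zero_iff.1 h)
  have h0' : Ideal.absNorm f ≠ 0 := fun h => hf (Ideal.absNorm_eq_zero_iff.1 h)
  refine ⟨h2, ?_, ?_⟩
  · unfold Nf
    exact_mod_cast Nat.one_le_iff_ne_zero.2 h0
  · have h3 : Ideal.absNorm g ∣ Ideal.absNorm f := Ideal.absNorm_dvd_absNorm_of_le h
    unfold Nf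
    exact_mod_cast Nat.le_of_dvd (Nat.pos_of_ne_zero h0') h3

theorem t6_Nf_top : Nf K (⊤ : Ideal (𝓞 K)) = 1 := by
  unfold Nf
  rw [← Ideal.one_eq_top, map_one]
  simp

theorem t6_sd : 0 < Real.sqrt |(discr K : ℝ)| :=
  Real.sqrt_pos.2 (abs_pos.2 (by exact_mod_cast discr_ne_zero K))

theorem t6_VV_top (a : InfinitePlace K → ℝ) (τ : ℝ) : 0 < VV K ⊤ a τ := by
  have h1 := t6_sd (K := K)
  unfold VV
  rw [t6_Nf_top]
  positivity

theorem t6_VV {n : ℕ} (hn : Module.finrank ℚ K = n) (g : Ideal (𝓞 K))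
    (a : InfinitePlace K → ℝ) (τ : ℝ) :
    VV K g (fun v => a v - 2 * Real.log 2) τ = 2 ^ n * VV K ⊤ a τ / Nf K g := by
  unfold VV
  rw [t6_Nf_top]
  have e1 : -τ - (∑ v : InfinitePlace K, (v.mult : ℝ) * (a v - 2 * Real.log 2)) / 2 =
      (n : ℝ) * Real.log 2 + (-τ - (∑ v : InfinitePlace K, (v.mult : ℝ) * a v) / 2) := by
    have h1 : (∑ v : InfinitePlace K, (v.mult : ℝ)) = n := by
      have := sum_mult (K := K) hn
      exact_mod_cast this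
    have h2 : ∑ v : InfinitePlace K, (v.mult : ℝ) * (a v - 2 * Real.log 2) =
        ∑ v : InfinitePlace K, (v.mult : ℝ) * a v - (n : ℝ) * (2 * Real.log 2) := by
      rw [← h1, Finset.sum_mul, ← Finset.sum_sub_distrib]
      exact Finset.sum_congr rfl fun v _ => by ring
    rw [h2]
    ring
  rw [e1, Real.exp_add, ← Real.log_pow, Real.exp_log (by positivity), mul_one,
    mul_div_assoc', div_div]

theorem t6_vol (hYC : T_YC) (hDU : T_DU) {M : FI K} (hM : M ≠ 0) (a : InfinitePlace K → ℝ)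
    (τ : ℝ) (z : logSpace K) :
    Real.exp (-(∑ v : InfinitePlace K, (v.mult : ℝ) * (yM K M τ z v + a v)) / 2) / cv K M =
      VV K ⊤ a τ := by
  have hN := (hDU K M hM).2.2.2.1
  have hs := t6_sd (K := K)
  have h1 := (hYC K).1 (τ - Real.log (FractionalIdeal.absNorm M : ℝ)) z
  have h2 : ∑ v : InfinitePlace K, (v.mult : ℝ) * (yM K M τ z v + a v) =
      2 * (τ - Real.log (FractionalIdeal.absNorm M : ℝ)) +
        ∑ v : InfinitePlace K, (v.mult : ℝ) * a v := by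
    rw [← h1, ← Finset.sum_add_distrib]
    unfold yM
    exact Finset.sum_congr rfl fun v _ => by ring
  unfold VV cv
  rw [t6_Nf_top, h2]
  have e1 : -(2 * (τ - Real.log (FractionalIdeal.absNorm M : ℝ)) +
      ∑ v : InfinitePlace K, (v.mult : ℝ) * a v) / 2 =
      Real.log (FractionalIdeal.absNorm M : ℝ) +
        (-τ - (∑ v : InfinitePlace K, (v.mult : ℝ) * a v) / 2) := by ring
  rw [e1, Real.exp_add, Real.exp_log hN, mul_one]
  field_simp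

theorem t6_mul_le (j : Ideal (𝓞 K)) (M : FI K) : (j : FI K) * M ≤ M := by
  have h1 : (j : FI K) ≤ 1 := FractionalIdeal.coeIdeal_le_one
  calc (j : FI K) * M ≤ 1 * M := mul_le_mul_left h1 M
    _ = M := one_mul M

theorem t6_mul_ne {j : Ideal (𝓞 K)} (hj : j ≠ ⊥) {M : FI K} (hM : M ≠ 0) :
    (j : FI K) * M ≠ 0 :=
  mul_ne_zero (FractionalIdeal.coeIdeal_ne_zero.2 hj) hM

theorem t6_cb_le (j : Ideal (𝓞 K)) (M : FI K) (y : InfinitePlace K → ℝ)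
    (hf : (Bx K M (fun v => y v - 2 * Real.log 4)).Finite) :
    cb K ((j : FI K) * M) (fun v => y v - 2 * Real.log 2) ≤
      cb K M (fun v => y v - 2 * Real.log 4) := by
  unfold cb
  refine Nat.cast_le.2 (Set.ncard_le_ncard (fun x hx => ?_) hf)
  refine ⟨t6_mul_le j M hx.1, fun v => le_trans ?_ (hx.2 v)⟩
  refine mul_le_mul_of_nonneg_left (Real.exp_le_exp.2 ?_) (apply_nonneg v x)
  have : Real.log 2 ≤ Real.log 4 := Real.log_le_log (by norm_num) (by norm_num)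
  linarith

theorem t6_meas (hYC : T_YC) (hCT : T_CT) (L M : FI K) (hL : L ≠ 0)
    (a : InfinitePlace K → ℝ) (τ : ℝ) :
    Measurable (fun z : logSpace K => th K L (fun v => yM K M τ z v + a v)) := by
  have h1 : Continuous (th K L) := hCT K L hL
  have h3 : Continuous (fun p : ℝ × logSpace K => yc K p.1 p.2) := (hYC K).2.2.2.2.1
  have h4 : Continuous (fun z : logSpace K => yM K M τ z) := by
    unfold yM
    exact h3.comp (continuous_const.prodMk continuous_id)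
  have h2 : Continuous (fun z : logSpace K => (fun v => yM K M τ z v + a v)) :=
    continuous_pi fun v => ((continuous_apply v).comp h4).add continuous_const
  exact (h1.comp h2).measurable

end NF

theorem pf_P_T6 (hCB : P_CB) (hZM : P_ZM) (hVCT : V_CT) (hYC : T_YC) (hCT : T_CT)
    (hDU : T_DU) : P_T6 := by
  intro n hn0 κ hκ hκ1
  obtain ⟨C₁, hC₁, h1⟩ := hCB n hn0
  obtain ⟨C₂, hC₂, h2⟩ := hZM n hn0 κ hκ hκ1
  obtain ⟨C₃, hC₃, h3⟩ := hVCT n hn0 κ hκ hκ1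
  have hC₁0 : 0 ≤ C₁ := zero_le_one.trans hC₁
  refine ⟨C₁ ^ 3 * (C₂ + C₁ * (C₃ * 4 ^ n) + C₁ ^ 2 * (C₃ * (4 * 4 ^ n))), by positivity,
    fun K _ _ hn ι _ M hM f g₂ g₃ g₄ hf hg₂ hg₃ hg₄ a τ V hV => ?_⟩
  classical
  obtain ⟨n₂, o₂, l₂⟩ := t6_Nf hf hg₂
  obtain ⟨n₃, o₃, l₃⟩ := t6_Nf hf hg₃
  obtain ⟨n₄, o₄, l₄⟩ := t6_Nf hf hg₄
  have hV0 : 0 < V := by
    rw [hV]
    exact t6_VV_top a τ
  set D : ℝ := cw K * |(discr K : ℝ)| ^ ((1 + κ) / 2) with hD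
  have hD0 : 0 ≤ D := by
    rw [hD]
    unfold cw
    positivity
  set b : InfinitePlace K → ℝ := fun v => a v - 2 * Real.log 2 with hb
  have eb : ∀ (c : ι) (z : logSpace K), (fun v => yM K (M c) τ z v + a v - 2 * Real.log 2) =
      fun v => yM K (M c) τ z v + b v := fun c z => by
    funext v
    rw [hb]
    ring
  set t₂ : ι → logSpace K → ℝ := fun c z =>
    th K ((g₂ : FI K) * M c) (fun v => yM K (M c) τ z v + b v) with ht₂
  set t₃ : ι → logSpace K → ℝ := fun c z =>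
    th K ((g₃ : FI K) * M c) (fun v => yM K (M c) τ z v + b v) with ht₃
  have m₃ : ∀ c, Measurable (t₃ c) := fun c =>
    t6_meas hYC hCT _ (M c) (t6_mul_ne n₃ (hM.1 c)) b τ
  -- the pointwise bound
  have hpt : ∀ (c : ι) (z : logSpace K), ENNReal.ofReal
      (cb K ((g₂ : FI K) * M c) (fun v => yM K (M c) τ z v + a v - 2 * Real.log 2) *
        cb K ((g₃ : FI K) * M c) (fun v => yM K (M c) τ z v + a v - 2 * Real.log 2) *
        cb K ((g₄ : FI K) * M c) (fun v => yM K (M c) τ z v + a v - 2 * Real.log 2) /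
          cb K (M c) (fun v => yM K (M c) τ z v + a v) ^ 3) ≤
      ENNReal.ofReal (C₁ ^ 3 * V ^ (-2 : ℝ)) * (1 + ENNReal.ofReal C₁ *
        ENNReal.ofReal (t₃ c z - 1) + ENNReal.ofReal (C₁ ^ 2) *
          ENNReal.ofReal ((t₂ c z - 1) * t₃ c z)) := by
    intro c z
    have hMc := hM.1 c
    have q0 := h1 K hn (M c) (fun v => yM K (M c) τ z v + a v) hMc
    have q2 := h1 K hn ((g₂ : FI K) * M c) (fun v => yM K (M c) τ z v + b v)
      (t6_mul_ne n₂ hMc)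
    have q3 := h1 K hn ((g₃ : FI K) * M c) (fun v => yM K (M c) τ z v + b v)
      (t6_mul_ne n₃ hMc)
    have q4' := h1 K hn (M c) (fun v => yM K (M c) τ z v + a v - 2 * Real.log 4) hMc
    have hcb4 := t6_cb_le g₄ (M c) (fun v => yM K (M c) τ z v + a v) q4'.1
    rw [eb] at hcb4 ⊢
    have hvol := t6_vol hYC hDU hMc a τ z
    rw [← hV] at hvol
    have hmV : V ≤ C₁ * cb K (M c) (fun v => yM K (M c) τ z v + a v) := by
      rw [← hvol]
      exact q0.2.2.2.2.2.1.trans q0.2.2.2.2.1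
    have key := t6_real (C := C₁) (m := cb K (M c) (fun v => yM K (M c) τ z v + a v))
      (n₂ := cb K ((g₂ : FI K) * M c) (fun v => yM K (M c) τ z v + b v))
      (n₃ := cb K ((g₃ : FI K) * M c) (fun v => yM K (M c) τ z v + b v))
      (n₄ := cb K ((g₄ : FI K) * M c) (fun v => yM K (M c) τ z v + b v))
      (t₂ := t₂ c z) (t₃ := t₃ c z) hC₁ hV0 q0.2.1 hmV q2.2.1 q3.2.1
      (Nat.cast_nonneg _) (hcb4.trans q0.2.2.2.2.2.2) q2.2.2.1 q3.2.2.1 q3.2.2.2.1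
    have u3 : 0 ≤ t₃ c z - 1 := by
      have := q3.2.2.1
      have h5 := q3.2.1
      by_contra hneg
      have : C₁ * (t₃ c z - 1) < 0 := mul_neg_of_pos_of_neg (by linarith) (not_le.1 hneg)
      simp only [ht₃] at this
      linarith
    have u2 : 0 ≤ t₂ c z - 1 := by
      have := q2.2.2.1
      have h5 := q2.2.1
      by_contra hneg
      have : C₁ * (t₂ c z - 1) < 0 := mul_neg_of_pos_of_neg (by linarith) (not_le.1 hneg)
      simp only [ht₂] at this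
      linarith
    have hA : 0 ≤ C₁ ^ 3 * V ^ (-2 : ℝ) :=
      mul_nonneg (by positivity) (Real.rpow_nonneg hV0.le _)
    have u23 : 0 ≤ (t₂ c z - 1) * t₃ c z := mul_nonneg u2 (by linarith)
    refine (ENNReal.ofReal_le_ofReal key).trans (le_of_eq ?_)
    rw [ENNReal.ofReal_mul hA, ENNReal.ofReal_add (by positivity) (by positivity),
      ENNReal.ofReal_add zero_le_one (by positivity), ENNReal.ofReal_one,
      ENNReal.ofReal_mul hC₁0, ENNReal.ofReal_mul (by positivity : 0 ≤ C₁ ^ 2)]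
  -- the integrals
  have hint : ∀ c : ι, ∫⁻ z in Fd K, (1 + ENNReal.ofReal C₁ *
        ENNReal.ofReal (t₃ c z - 1) + ENNReal.ofReal (C₁ ^ 2) *
          ENNReal.ofReal ((t₂ c z - 1) * t₃ c z)) =
      volume (Fd K) + ENNReal.ofReal C₁ * (∫⁻ z in Fd K, ENNReal.ofReal (t₃ c z - 1)) +
        ENNReal.ofReal (C₁ ^ 2) * ∫⁻ z in Fd K, ENNReal.ofReal ((t₂ c z - 1) * t₃ c z) := by
    intro c
    have hm : Measurable (fun z : logSpace K => ENNReal.ofReal C₁ *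
        ENNReal.ofReal (t₃ c z - 1)) :=
      ((m₃ c).sub_const 1).ennreal_ofReal.const_mul _
    have hm' : Measurable (fun z : logSpace K => 1 + ENNReal.ofReal C₁ *
        ENNReal.ofReal (t₃ c z - 1)) := measurable_const.add hm
    rw [lintegral_add_left hm', lintegral_add_left measurable_const,
      lintegral_const_mul' _ _ ENNReal.ofReal_ne_top,
      lintegral_const_mul' _ _ ENNReal.ofReal_ne_top, setLIntegral_one]
  have h3a := (h3 K hn ι M hM g₂ g₃ b b τ n₂ n₃).1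
  have h3b := (h3 K hn ι M hM g₃ g₂ b b τ n₃ n₂).2
  have h2a := h2 K hn ι M hM
  rw [hb, t6_VV hn g₂ a τ, t6_VV hn g₃ a τ, ← hV, ← hb] at h3a
  rw [hb, t6_VV hn g₃ a τ, ← hV, ← hb] at h3b
  set S : ℝ := 1 + V ^ (1 + κ) / Nf K g₂ + V ^ (1 + κ) / Nf K g₃ +
    V ^ 2 / (Nf K g₂ * Nf K g₃) with hS
  have hP : 0 ≤ V ^ (1 + κ) := Real.rpow_nonneg hV0.le _
  have hS1 : 1 ≤ S := by
    rw [hS]
    have a1 : 0 ≤ V ^ (1 + κ) / Nf K g₂ := by positivity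
    have a2 : 0 ≤ V ^ (1 + κ) / Nf K g₃ := by positivity
    have a3 : 0 ≤ V ^ 2 / (Nf K g₂ * Nf K g₃) := by positivity
    linarith
  have hS3 : V ^ (1 + κ) / Nf K g₃ ≤ S := by
    rw [hS]
    have a1 : 0 ≤ V ^ (1 + κ) / Nf K g₂ := by positivity
    have a3 : 0 ≤ V ^ 2 / (Nf K g₂ * Nf K g₃) := by positivity
    linarith
  have hNκ : 1 ≤ Nf K f ^ κ := Real.one_le_rpow (o₂.trans l₂) hκ.le
  have hNS : 1 ≤ Nf K f ^ κ * S := one_le_mul_of_one_le_of_one_le hNκ hS1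
  have hNS3 : V ^ (1 + κ) / Nf K g₃ ≤ Nf K f ^ κ * S := by
    calc V ^ (1 + κ) / Nf K g₃ ≤ S := hS3
      _ = 1 * S := (one_mul _).symm
      _ ≤ _ := mul_le_mul_of_nonneg_right hNκ (by linarith)
  have hA : 0 ≤ C₁ ^ 3 * V ^ (-2 : ℝ) :=
    mul_nonneg (by positivity) (Real.rpow_nonneg hV0.le _)
  have w1 : ∑ _c : ι, volume (Fd K) ≤ ENNReal.ofReal (C₂ * D * (Nf K f ^ κ * S)) := by
    refine h2a.trans (ENNReal.ofReal_le_ofReal ?_)
    exact le_mul_of_one_le_right (by positivity) hNS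
  have w2 : ∑ c : ι, (∫⁻ z in Fd K, ENNReal.ofReal (t₃ c z - 1)) ≤
      ENNReal.ofReal (C₃ * 4 ^ n * D * (Nf K f ^ κ * S)) := by
    refine h3b.trans (ENNReal.ofReal_le_ofReal ?_)
    calc C₃ * (cw K * |(discr K : ℝ)| ^ ((1 + κ) / 2)) * (2 ^ n * V / Nf K g₃) ^ (1 + κ)
        ≤ C₃ * D * (4 ^ n * (V ^ (1 + κ) / Nf K g₃)) :=
          mul_le_mul_of_nonneg_left (t6_num1 hκ hκ1 hV0 o₃) (by positivity)
      _ ≤ C₃ * D * (4 ^ n * (Nf K f ^ κ * S)) := by gcongr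
      _ = _ := by ring
  have w3 : ∑ c : ι, (∫⁻ z in Fd K, ENNReal.ofReal ((t₂ c z - 1) * t₃ c z)) ≤
      ENNReal.ofReal (C₃ * (4 * 4 ^ n) * D * (Nf K f ^ κ * S)) := by
    refine h3a.trans (ENNReal.ofReal_le_ofReal ?_)
    calc C₃ * (cw K * |(discr K : ℝ)| ^ ((1 + κ) / 2)) * _
        ≤ C₃ * D * ((4 * 4 ^ n) * (Nf K f ^ κ * S)) :=
          mul_le_mul_of_nonneg_left (t6_num2 hκ hκ1 hV0 o₂ o₃ l₂ l₃) (by positivity)
      _ = _ := by ring
  have e1 : (0 : ℝ) ≤ C₂ * D * (Nf K f ^ κ * S) := by positivity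
  have e2 : (0 : ℝ) ≤ C₃ * 4 ^ n * D * (Nf K f ^ κ * S) := by positivity
  have e3 : (0 : ℝ) ≤ C₃ * (4 * 4 ^ n) * D * (Nf K f ^ κ * S) := by positivity
  calc ∑ c, ∫⁻ z in Fd K, ENNReal.ofReal
          (cb K ((g₂ : FI K) * M c) (fun v => yM K (M c) τ z v + a v - 2 * Real.log 2) *
            cb K ((g₃ : FI K) * M c) (fun v => yM K (M c) τ z v + a v - 2 * Real.log 2) *
            cb K ((g₄ : FI K) * M c) (fun v => yM K (M c) τ z v + a v - 2 * Real.log 2) /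
              cb K (M c) (fun v => yM K (M c) τ z v + a v) ^ 3)
      ≤ ∑ c, ENNReal.ofReal (C₁ ^ 3 * V ^ (-2 : ℝ)) * (volume (Fd K) + ENNReal.ofReal C₁ *
        (∫⁻ z in Fd K, ENNReal.ofReal (t₃ c z - 1)) + ENNReal.ofReal (C₁ ^ 2) *
          ∫⁻ z in Fd K, ENNReal.ofReal ((t₂ c z - 1) * t₃ c z)) := by
        refine Finset.sum_le_sum fun c _ => ?_
        rw [← hint c, ← lintegral_const_mul' _ _ ENNReal.ofReal_ne_top]
        exact lintegral_mono fun z => hpt c z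
    _ = ENNReal.ofReal (C₁ ^ 3 * V ^ (-2 : ℝ)) * (∑ _c : ι, volume (Fd K) +
        ENNReal.ofReal C₁ * (∑ c, ∫⁻ z in Fd K, ENNReal.ofReal (t₃ c z - 1)) +
        ENNReal.ofReal (C₁ ^ 2) *
          ∑ c, ∫⁻ z in Fd K, ENNReal.ofReal ((t₂ c z - 1) * t₃ c z)) := by
        rw [← Finset.mul_sum, Finset.sum_add_distrib, Finset.sum_add_distrib,
          ← Finset.mul_sum, ← Finset.mul_sum]
    _ ≤ ENNReal.ofReal (C₁ ^ 3 * V ^ (-2 : ℝ)) *
        (ENNReal.ofReal (C₂ * D * (Nf K f ^ κ * S)) +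
        ENNReal.ofReal C₁ * ENNReal.ofReal (C₃ * 4 ^ n * D * (Nf K f ^ κ * S)) +
        ENNReal.ofReal (C₁ ^ 2) *
          ENNReal.ofReal (C₃ * (4 * 4 ^ n) * D * (Nf K f ^ κ * S))) := by
        gcongr
    _ = ENNReal.ofReal (C₁ ^ 3 * V ^ (-2 : ℝ) * (C₂ * D * (Nf K f ^ κ * S) +
        C₁ * (C₃ * 4 ^ n * D * (Nf K f ^ κ * S)) +
        C₁ ^ 2 * (C₃ * (4 * 4 ^ n) * D * (Nf K f ^ κ * S)))) := by
        rw [← ENNReal.ofReal_mul hC₁0, ← ENNReal.ofReal_mul (by positivity : 0 ≤ C₁ ^ 2),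
          ← ENNReal.ofReal_add e1 (by positivity),
          ← ENNReal.ofReal_add (by positivity) (by positivity), ← ENNReal.ofReal_mul hA]
    _ = _ := by
        congr 1
        ring

end Pool.Agent.H95.BG
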