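import Pool.Agent.H23.BG.TargetsP
import Pool.Agent.H29.DW.Tools

/-!
# The trivial bound
-/

set_option autoImplicit false

open NumberField NumberField.InfinitePlace NumberField.Units
  NumberField.Units.dirichletUnitTheorem MeasureTheory Set Filter Complex
open scoped nonZeroDivisors ENNReal

namespace Pool.Agent.H95.BG

open Pool.Agent.H25.HK Pool.Agent.H23.LB Pool.Agent.H23.LC Pool.Agent.H29.DW
  Pool.Agent.H23.BG
open Pool.Agent.H28.RC (Rep ft idl)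

section

variable {K : Type} [Field K] [NumberField K]

open scoped Classical in
theorem tv_point {n : ℕ} (hn : Module.finrank ℚ K = n) (M : FI K) {cp : InfinitePlace K → ℂ}
    {H : InfinitePlace K → ℝ} {p : InfinitePlace K → ℂ → ℂ} {B : ℝ} (cc : K → ℂ)
    (hP : Pw cp H) (hB : 1 ≤ B) (hp : ∀ v, Bmp 2 B (p v)) (hc : ∀ x ∈ M, ‖cc x‖ ≤ 1)
    (y : InfinitePlace K → ℝ) (ω : InfinitePlace K → ℂ) :
    ENNReal.ofReal ‖∑' x : {x : K // x ∈ M}, cc x * Wg cp H p x y ω‖ ≤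
      ENNReal.ofReal (B ^ n) * nn K M H y ω := by
  rw [ofReal_norm]
  refine le_trans enorm_tsum_le_tsum_enorm ?_
  unfold nn
  rw [← ENNReal.tsum_mul_left]
  refine ENNReal.tsum_le_tsum fun x => ?_
  by_cases h0 : Wg cp H p x.1 y ω = 0
  · rw [h0, mul_zero, enorm_zero]
    exact zero_le
  · have h1 := Wg_ne (x := x.1) (y := y) (ω := ω) hP.one (fun v x hx => (hp v).supp x hx) h0
    rw [if_pos (fun v => (h1 v).trans (by norm_num)), mul_one, ← ofReal_norm]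
    refine ENNReal.ofReal_le_ofReal ?_
    rw [norm_mul]
    have h2 : ‖Wg cp H p x.1 y ω‖ ≤ B ^ n := by
      rw [norm_Wg]
      calc ∏ v, ‖p v (H v * (wv v x.1 y ω - 1))‖ ≤ ∏ _v : InfinitePlace K, B :=
            Finset.prod_le_prod (fun v _ => norm_nonneg _) fun v _ => (hp v).norm_le _
        _ = B ^ Fintype.card (InfinitePlace K) := by
            rw [Finset.prod_const, Finset.card_univ]
        _ ≤ B ^ n := pow_le_pow_right₀ hB (card_places_le hn)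
    calc ‖cc x.1‖ * ‖Wg cp H p x.1 y ω‖ ≤ 1 * B ^ n :=
          mul_le_mul (hc _ x.2) h2 (norm_nonneg _) zero_le_one
      _ = B ^ n := one_mul _

end

theorem pf_P_TV (hFM : P_FM) : P_TV := by
  intro n hn0 κ hκ hκ1
  obtain ⟨C, hC, h⟩ := hFM n hn0 κ hκ hκ1
  refine ⟨C, hC, fun K _ _ hn ι _ M hM cp H p B τ₁ cc hP hB hp hc => ?_⟩
  classical
  have h1 := h K hn ι M hM H τ₁ hP.one
  have hB0 : 0 ≤ B ^ n := pow_nonneg (zero_le_one.trans hB) n
  have h2 : ∀ τ : ℝ, (∑ c, ∫⁻ z in Fd K, ∫⁻ θ in An K,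
      ENNReal.ofReal ‖∑' x : {x : K // x ∈ M c}, cc c x *
        Wg cp H p x (yM K (M c) τ z) (om true θ)‖) ≤
      ENNReal.ofReal (B ^ n) * ∑ c, ∫⁻ z in Fd K, ∫⁻ θ in An K,
        nn K (M c) H (yM K (M c) τ z) (om true θ) := by
    intro τ
    rw [Finset.mul_sum]
    refine Finset.sum_le_sum fun c _ => ?_
    rw [← lintegral_const_mul' _ _ ENNReal.ofReal_ne_top]
    refine lintegral_mono fun z => ?_
    rw [← lintegral_const_mul' _ _ ENNReal.ofReal_ne_top]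
    exact lintegral_mono fun θ => tv_point hn (M c) (cc c) hP hB hp (hc c) _ _
  calc ∫⁻ τ in Icc τ₁ (τ₁ + 1), ∑ c, ∫⁻ z in Fd K, ∫⁻ θ in An K,
      ENNReal.ofReal ‖∑' x : {x : K // x ∈ M c}, cc c x *
        Wg cp H p x (yM K (M c) τ z) (om true θ)‖
      ≤ ∫⁻ τ in Icc τ₁ (τ₁ + 1), ENNReal.ofReal (B ^ n) * ∑ c, ∫⁻ z in Fd K, ∫⁻ θ in An K,
        nn K (M c) H (yM K (M c) τ z) (om true θ) := lintegral_mono fun τ => h2 τ
    _ = ENNReal.ofReal (B ^ n) * ∫⁻ τ in Icc τ₁ (τ₁ + 1), ∑ c, ∫⁻ z in Fd K, ∫⁻ θ in An K,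
        nn K (M c) H (yM K (M c) τ z) (om true θ) :=
      lintegral_const_mul' _ _ ENNReal.ofReal_ne_top
    _ ≤ ENNReal.ofReal (B ^ n) * ENNReal.ofReal (C * (cw K * |(discr K : ℝ)| ^ ((1 + κ) / 2)) *
        (HH H)⁻¹ * (Real.exp (-τ₁) / Real.sqrt |(discr K : ℝ)|) ^ (1 + κ)) :=
      mul_le_mul_right h1 _
    _ = _ := by
      rw [← ENNReal.ofReal_mul hB0]
      congr 1
      ring

end Pool.Agent.H95.BG
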